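import Mathlib

namespace Pool.Agent.Results.MP_e2d93f_co.CompleteSemiArc

open Set

/-- The closed circular arc of radius `r` centred at the origin, with angles from `a` to `b`. -/
def arc (r a b : ℝ) : Set ℂ :=
  {z | ∃ t ∈ Set.Icc a b, z = (r : ℂ) * Complex.exp ((t : ℂ) * Complex.I)}

/-- The region swept by the segments from `x e^{iθ}` to `y e^{iθ}`, for `θ ∈ [a, b]`.
The radii `x`, `y` are signed.  If they have the same sign the region is a sector of an annulus;
if they have opposite signs the two radial sides cross at the origin. -/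
def cone (x y a b : ℝ) : Set ℂ :=
  {z | ∃ s ∈ Set.uIcc x y, ∃ t ∈ Set.Icc a b, z = (s : ℂ) * Complex.exp ((t : ℂ) * Complex.I)}

/-- A family of pairwise disjoint arcs centred at the origin, indexed by `V`. -/
structure ArcFamily (V : Type) where
  /-- radii -/
  r : V → ℝ
  /-- angles of the negative endpoints -/
  lo : V → ℝ
  /-- angles of the positive endpoints -/
  hi : V → ℝ
  r_pos : ∀ v, 0 < r v
  lo_mem : ∀ v, lo v ∈ Set.Ico 0 (2 * Real.pi)
  len_mem : ∀ v, hi v - lo v ∈ Set.Ico 0 (2 * Real.pi)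
  disj : ∀ u v, u ≠ v → Disjoint (arc (r u) (lo u) (hi u)) (arc (r v) (lo v) (hi v))

/-- The arc of the vertex `v`. -/
def ArcFamily.A {V : Type} (F : ArcFamily V) (v : V) : Set ℂ := arc (F.r v) (F.lo v) (F.hi v)

/-- `u` and `v` are radially `k`-visible: some non-degenerate cone has its circular sides in the
arcs of `u` and `v`, and meets at most `k` of the other arcs.  (Asking that the cone has angular
width less than `π` is no restriction, since a narrower cone meets no more arcs.) -/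
def ArcFamily.KVisible {V : Type} (F : ArcFamily V) (k : ℕ) (u v : V) : Prop :=
  ∃ x y a b : ℝ, x ≠ 0 ∧ y ≠ 0 ∧ x ≠ y ∧ a < b ∧ b - a < Real.pi ∧
    (∀ t ∈ Set.Icc a b, (x : ℂ) * Complex.exp ((t : ℂ) * Complex.I) ∈ F.A u) ∧
    (∀ t ∈ Set.Icc a b, (y : ℂ) * Complex.exp ((t : ℂ) * Complex.I) ∈ F.A v) ∧
    {w : V | w ≠ u ∧ w ≠ v ∧ (F.A w ∩ cone x y a b).Nonempty}.encard ≤ k

/-- `G` is a semi-arc `k`-visibility graph; every negative endpoint is on the positive
`x`-axis. -/
def IsSemiArcKVis {V : Type} (k : ℕ) (G : SimpleGraph V) : Prop :=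
  ∃ F : ArcFamily V, (∀ v, F.lo v = 0) ∧ ∀ u v, u ≠ v → (G.Adj u v ↔ F.KVisible k u v)

/-! ### Points of arcs on rays -/

lemma exp_eq_cases (r t α θ : ℝ) (hr : 0 < r) (hα : 0 ≤ α) (hα2 : α < 2 * Real.pi)
    (hθ : 0 < θ) (hθ2 : θ < Real.pi)
    (h : (t : ℂ) * Complex.exp ((θ : ℂ) * Complex.I) = (r : ℂ) * Complex.exp ((α : ℂ) * Complex.I)) :
    (t = r ∧ α = θ) ∨ (t = -r ∧ α = θ + Real.pi) := by
  have hpi := Real.pi_pos
  have hn : |t| = r := by
    have h1 := congrArg (fun z : ℂ => ‖z‖) h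
    simp only [norm_mul, Complex.norm_exp_ofReal_mul_I, mul_one, Complex.norm_real,
      Real.norm_eq_abs] at h1
    rw [h1, abs_of_pos hr]
  have hr0 : (r : ℂ) ≠ 0 := by exact_mod_cast hr.ne'
  rcases abs_choice t with h2 | h2
  · left
    have ht : t = r := by rw [← hn, h2]
    refine ⟨ht, ?_⟩
    rw [ht] at h
    have h3 := mul_left_cancel₀ hr0 h
    rw [Complex.exp_eq_exp_iff_exists_int] at h3
    obtain ⟨m, hm⟩ := h3
    have h4 : θ = α + m * (2 * Real.pi) := by
      have h5 : ((θ : ℂ)) * Complex.I = ((α + m * (2 * Real.pi) : ℝ) : ℂ) * Complex.I := by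
        rw [hm]; push_cast; ring
      have h6 := mul_right_cancel₀ Complex.I_ne_zero h5
      exact_mod_cast h6
    have h7 : m = 0 := by
      have h8 : (m : ℝ) < 1 := by
        by_contra hc
        push Not at hc
        nlinarith
      have h9 : (-1 : ℝ) < m := by
        by_contra hc
        push Not at hc
        nlinarith
      have h10 : m < 1 := by exact_mod_cast h8
      have h11 : -1 < m := by exact_mod_cast h9
      omega
    rw [h7] at h4
    simp at h4
    exact h4.symm
  · right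
    have ht : t = -r := by rw [← hn, h2]; ring
    refine ⟨ht, ?_⟩
    rw [ht] at h
    have h3 : Complex.exp (((θ + Real.pi : ℝ) : ℂ) * Complex.I)
        = Complex.exp ((α : ℂ) * Complex.I) := by
      apply mul_left_cancel₀ hr0
      rw [← h]
      push_cast
      rw [add_mul, Complex.exp_add, Complex.exp_pi_mul_I]
      ring
    rw [Complex.exp_eq_exp_iff_exists_int] at h3
    obtain ⟨m, hm⟩ := h3
    have h4 : θ + Real.pi = α + m * (2 * Real.pi) := by
      have h5 : ((θ + Real.pi : ℝ) : ℂ) * Complex.I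
          = ((α + m * (2 * Real.pi) : ℝ) : ℂ) * Complex.I := by
        rw [hm]; push_cast; ring
      have h6 := mul_right_cancel₀ Complex.I_ne_zero h5
      exact_mod_cast h6
    have h7 : m = 0 := by
      have h8 : (m : ℝ) < 1 := by
        by_contra hc
        push Not at hc
        nlinarith
      have h9 : (-1 : ℝ) < m := by
        by_contra hc
        push Not at hc
        nlinarith
      have h10 : m < 1 := by exact_mod_cast h8
      have h11 : -1 < m := by exact_mod_cast h9
      omega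
    rw [h7] at h4
    simp at h4
    exact h4.symm

lemma mem_arc_pos (r l θ : ℝ) (hθ : 0 ≤ θ) (hl : θ ≤ l) :
    (r : ℂ) * Complex.exp ((θ : ℂ) * Complex.I) ∈ arc r 0 l := ⟨θ, ⟨hθ, hl⟩, rfl⟩

lemma mem_arc_neg (r l θ : ℝ) (hθ : 0 ≤ θ) (hl : θ + Real.pi ≤ l) :
    ((-r : ℝ) : ℂ) * Complex.exp ((θ : ℂ) * Complex.I) ∈ arc r 0 l := by
  refine ⟨θ + Real.pi, ⟨by linarith [Real.pi_pos], hl⟩, ?_⟩
  push_cast
  rw [add_mul, Complex.exp_add, Complex.exp_pi_mul_I]
  ring

lemma arc_ray (r l t θ : ℝ) (hr : 0 < r) (hl : l < 2 * Real.pi) (hθ : 0 < θ) (hθ2 : θ < Real.pi)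
    (h : (t : ℂ) * Complex.exp ((θ : ℂ) * Complex.I) ∈ arc r 0 l) :
    (t = r ∧ θ ≤ l) ∨ (t = -r ∧ θ + Real.pi ≤ l) := by
  obtain ⟨α, ⟨h0, h1⟩, h2⟩ := h
  rcases exp_eq_cases r t α θ hr h0 (by linarith) hθ hθ2 h2 with ⟨h3, h4⟩ | ⟨h3, h4⟩
  · left; exact ⟨h3, by linarith⟩
  · right; exact ⟨h3, by linarith⟩

/-! ### The representation -/

/-- Rank of the end of the arc of the vertex `v`. -/
def e (k v : ℕ) : ℕ :=
  if v ≤ k then 2 * k + 2 - v
  else if v ≤ 2 * k + 1 then 4 * k + 4 - v
  else if v ≤ 3 * k + 2 then v - (2 * k + 1)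
  else 3 * k + 4

/-- Unit angle. -/
noncomputable def dl (k : ℕ) : ℝ := Real.pi / (3 * k + 5)

/-- Angular length of the arc of `v`. -/
noncomputable def len (k v : ℕ) : ℝ :=
  dl k * e k v + (if 2 * k + 2 ≤ v then Real.pi else 0)

lemma dl_pos (k : ℕ) : 0 < dl k := by
  unfold dl
  have := Real.pi_pos
  positivity

lemma dl_mul (k : ℕ) : dl k * (3 * k + 5) = Real.pi := by
  unfold dl
  have : (3 * (k : ℝ) + 5) ≠ 0 := by positivity
  field_simp

lemma e_le (k v : ℕ) (hv : v < 3 * k + 4) : e k v ≤ 3 * k + 4 := by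
  unfold e
  split_ifs <;> omega

lemma e_pos (k v : ℕ) : 1 ≤ e k v := by
  unfold e
  split_ifs <;> omega

lemma len_lt (k v : ℕ) (hv : v < 3 * k + 4) : len k v < 2 * Real.pi := by
  unfold len
  have h1 := dl_mul k
  have h2 := dl_pos k
  have h3 : (e k v : ℝ) ≤ 3 * k + 4 := by exact_mod_cast e_le k v hv
  have hpi := Real.pi_pos
  split_ifs <;> nlinarith

lemma len_nonneg (k v : ℕ) : 0 ≤ len k v := by
  unfold len
  have h2 := dl_pos k
  have hpi := Real.pi_pos
  split_ifs <;> positivity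

/-- The representation of `K_{3k+4}`. -/
noncomputable def F (k : ℕ) : ArcFamily (Fin (3 * k + 4)) where
  r v := (v.val : ℝ) + 1
  lo _ := 0
  hi v := len k v.val
  r_pos v := by positivity
  lo_mem _ := ⟨le_refl _, by linarith [Real.pi_pos]⟩
  len_mem v := by
    rw [sub_zero]
    exact ⟨len_nonneg k v.val, len_lt k v.val v.isLt⟩
  disj u v huv := by
    rw [Set.disjoint_left]
    rintro z ⟨s, _, hs⟩ ⟨t, _, ht⟩
    apply huv
    rw [hs] at ht
    have h1 := congrArg (fun z : ℂ => ‖z‖) ht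
    simp only [norm_mul, Complex.norm_exp_ofReal_mul_I, mul_one, Complex.norm_real,
      Real.norm_eq_abs] at h1
    rw [abs_of_pos (by positivity), abs_of_pos (by positivity)] at h1
    have h2 : (u.val : ℝ) = v.val := by linarith
    exact Fin.ext (by exact_mod_cast h2)

/-- The start and end of the `j`-th angular window. -/
noncomputable def wa (k j : ℕ) : ℝ := dl k * (j - 2 / 3)
/-- The end of the `j`-th angular window. -/
noncomputable def wb (k j : ℕ) : ℝ := dl k * (j - 1 / 3)

lemma wa_pos (k j : ℕ) (hj : 1 ≤ j) : 0 < wa k j := by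
  unfold wa
  have h2 := dl_pos k
  have : (1 : ℝ) ≤ j := by exact_mod_cast hj
  apply mul_pos h2
  linarith

lemma wab (k j : ℕ) : wa k j < wb k j := by
  unfold wa wb
  have h2 := dl_pos k
  nlinarith

lemma wb_lt (k j : ℕ) (hj : j ≤ 3 * k + 4) : wb k j < Real.pi := by
  unfold wb
  have h2 := dl_pos k
  have h1 := dl_mul k
  have : (j : ℝ) ≤ 3 * k + 4 := by exact_mod_cast hj
  nlinarith

/-- `w` is present on the ray `θ` in window `j`. -/
lemma present_pos (k j w : ℕ) (hj : j ≤ 3 * k + 4) (h : 2 * k + 2 ≤ w ∨ j ≤ e k w) (θ : ℝ)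
    (h2 : θ ≤ wb k j) : θ ≤ len k w := by
  unfold len
  have hd := dl_pos k
  have hb := wb_lt k j hj
  have hpi := Real.pi_pos
  have he : (0 : ℝ) ≤ dl k * e k w := by positivity
  split_ifs with hc
  · linarith
  · rcases h with h | h
    · exact absurd h hc
    · have h3 : (j : ℝ) ≤ e k w := by exact_mod_cast h
      unfold wb at h2
      nlinarith

lemma present_neg (k j w : ℕ) (h : 2 * k + 2 ≤ w) (h' : j ≤ e k w) (θ : ℝ)
    (h2 : θ ≤ wb k j) : θ + Real.pi ≤ len k w := by
  unfold len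
  have hd := dl_pos k
  rw [if_pos h]
  have h3 : (j : ℝ) ≤ e k w := by exact_mod_cast h'
  unfold wb at h2
  nlinarith

lemma absent_pos (k j w : ℕ) (θ : ℝ) (h1 : wa k j ≤ θ) (h2 : θ ≤ len k w) :
    2 * k + 2 ≤ w ∨ j ≤ e k w := by
  by_contra hc
  push Not at hc
  obtain ⟨hc1, hc2⟩ := hc
  unfold len at h2
  rw [if_neg (by omega)] at h2
  have hd := dl_pos k
  have h3 : (e k w : ℝ) + 1 ≤ j := by exact_mod_cast hc2
  unfold wa at h1
  nlinarith

lemma absent_neg (k j w : ℕ) (hw : w < 3 * k + 4) (θ : ℝ) (hθ : 0 < θ) (h1 : wa k j ≤ θ)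
    (h2 : θ + Real.pi ≤ len k w) : 2 * k + 2 ≤ w ∧ j ≤ e k w := by
  have hd := dl_pos k
  have hm := dl_mul k
  have h4 : (e k w : ℝ) ≤ 3 * k + 4 := by exact_mod_cast e_le k w hw
  constructor
  · by_contra hc
    unfold len at h2
    rw [if_neg (by omega)] at h2
    nlinarith
  · by_contra hc
    push Not at hc
    have h3 : (e k w : ℝ) + 1 ≤ j := by exact_mod_cast hc
    unfold wa at h1
    unfold len at h2
    split_ifs at h2
    · nlinarith
    · nlinarith

lemma card_le (N k a b : ℕ) (hab : b ≤ a + k) (S : Set (Fin N))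
    (h : ∀ w ∈ S, a ≤ w.val ∧ w.val < b) : S.encard ≤ k := by
  classical
  have h1 : (Fin.val '' S) ⊆ ((Finset.Ico a b : Finset ℕ) : Set ℕ) := by
    rintro x ⟨w, hw, rfl⟩
    have := h w hw
    simp only [Finset.coe_Ico, Set.mem_Ico]
    exact this
  have h2 : S.encard = (Fin.val '' S).encard :=
    (Function.Injective.encard_image Fin.val_injective S).symm
  rw [h2]
  refine (Set.encard_le_encard h1).trans ?_
  rw [Set.encard_coe_eq_coe_finsetCard, Nat.card_Ico]
  exact_mod_cast (by omega : b - a ≤ k)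

lemma same_ray (k : ℕ) (u v : Fin (3 * k + 4)) (j a b : ℕ) (huv : u.val < v.val)
    (hj1 : 1 ≤ j) (hj2 : j ≤ 3 * k + 4)
    (hu : 2 * k + 2 ≤ u.val ∨ j ≤ e k u.val) (hv : 2 * k + 2 ≤ v.val ∨ j ≤ e k v.val)
    (hab : b ≤ a + k)
    (H : ∀ w : ℕ, u.val < w → w < v.val → (2 * k + 2 ≤ w ∨ j ≤ e k w) → a ≤ w ∧ w < b) :
    (F k).KVisible k u v := by
  have hwa := wa_pos k j hj1
  have hwb := wb_lt k j hj2
  have hu0 : (0 : ℝ) < (u.val : ℝ) + 1 := by positivity
  have hv0 : (0 : ℝ) < (v.val : ℝ) + 1 := by positivity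
  have huv' : (u.val : ℝ) < v.val := by exact_mod_cast huv
  refine ⟨(u.val : ℝ) + 1, (v.val : ℝ) + 1, wa k j, wb k j, hu0.ne', hv0.ne', by linarith,
    wab k j, by linarith, ?_, ?_, ?_⟩
  · rintro t ⟨ht1, ht2⟩
    exact mem_arc_pos _ _ _ (by linarith) (present_pos k j _ hj2 hu t ht2)
  · rintro t ⟨ht1, ht2⟩
    exact mem_arc_pos _ _ _ (by linarith) (present_pos k j _ hj2 hv t ht2)
  · apply card_le _ k a b hab
    rintro w ⟨hwu, hwv, z, hz1, s, hs, t, ⟨ht1, ht2⟩, hz⟩
    have hs' := hs
    rw [Set.uIcc_of_le (by linarith)] at hs'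
    rw [hz] at hz1
    have hw0 : (0 : ℝ) < (w.val : ℝ) + 1 := by positivity
    rcases arc_ray _ _ _ _ hw0 (len_lt k w.val w.isLt) (by linarith) (by linarith) hz1
      with ⟨h1, h2⟩ | ⟨h1, h2⟩
    · rw [h1] at hs'
      obtain ⟨h3, h4⟩ := hs'
      have h5 : u.val ≤ w.val := by
        have : (u.val : ℝ) ≤ w.val := by linarith
        exact_mod_cast this
      have h6 : w.val ≤ v.val := by
        have : (w.val : ℝ) ≤ v.val := by linarith
        exact_mod_cast this
      have h7 : u.val ≠ w.val := fun h => hwu (Fin.ext h.symm)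
      have h8 : w.val ≠ v.val := fun h => hwv (Fin.ext h)
      exact H w.val (by omega) (by omega) (absent_pos k j _ t ht1 h2)
    · exfalso
      rw [h1] at hs'
      have := hs'.1
      linarith

lemma centre (k : ℕ) (u v : Fin (3 * k + 4)) (j a b : ℕ)
    (hj1 : 1 ≤ j) (hj2 : j ≤ 3 * k + 4)
    (hu : 2 * k + 2 ≤ u.val ∨ j ≤ e k u.val) (hv : 2 * k + 2 ≤ v.val) (hv' : j ≤ e k v.val)
    (hab : b ≤ a + k)
    (H1 : ∀ w : ℕ, w < u.val → (2 * k + 2 ≤ w ∨ j ≤ e k w) → a ≤ w ∧ w < b)
    (H2 : ∀ w : ℕ, w < v.val → 2 * k + 2 ≤ w → j ≤ e k w → a ≤ w ∧ w < b) :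
    (F k).KVisible k u v := by
  have hwa := wa_pos k j hj1
  have hwb := wb_lt k j hj2
  have hu0 : (0 : ℝ) < (u.val : ℝ) + 1 := by positivity
  have hv0 : (0 : ℝ) < (v.val : ℝ) + 1 := by positivity
  refine ⟨(u.val : ℝ) + 1, -((v.val : ℝ) + 1), wa k j, wb k j, hu0.ne', by linarith, by linarith,
    wab k j, by linarith, ?_, ?_, ?_⟩
  · rintro t ⟨ht1, ht2⟩
    exact mem_arc_pos _ _ _ (by linarith) (present_pos k j _ hj2 hu t ht2)
  · rintro t ⟨ht1, ht2⟩
    exact mem_arc_neg _ _ _ (by linarith) (present_neg k j _ hv hv' t ht2)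
  · apply card_le _ k a b hab
    rintro w ⟨hwu, hwv, z, hz1, s, hs, t, ⟨ht1, ht2⟩, hz⟩
    have hs' := hs
    rw [Set.uIcc_comm, Set.uIcc_of_le (by linarith)] at hs'
    rw [hz] at hz1
    have hw0 : (0 : ℝ) < (w.val : ℝ) + 1 := by positivity
    rcases arc_ray _ _ _ _ hw0 (len_lt k w.val w.isLt) (by linarith) (by linarith) hz1
      with ⟨h1, h2⟩ | ⟨h1, h2⟩
    · rw [h1] at hs'
      obtain ⟨h3, h4⟩ := hs'
      have h6 : w.val ≤ u.val := by
        have : (w.val : ℝ) ≤ u.val := by linarith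
        exact_mod_cast this
      have h7 : u.val ≠ w.val := fun h => hwu (Fin.ext h.symm)
      exact H1 w.val (by omega) (absent_pos k j _ t ht1 h2)
    · rw [h1] at hs'
      obtain ⟨h3, h4⟩ := hs'
      have h6 : w.val ≤ v.val := by
        have : (w.val : ℝ) ≤ v.val := by linarith
        exact_mod_cast this
      have h7 : v.val ≠ w.val := fun h => hwv (Fin.ext h.symm)
      obtain ⟨h8, h9⟩ := absent_neg k j _ w.isLt t (by linarith) ht1 h2
      exact H2 w.val (by omega) h8 h9

lemma visible_of_lt (k : ℕ) (u v : Fin (3 * k + 4)) (huv : u.val < v.val) :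
    (F k).KVisible k u v ∨ (F k).KVisible k v u := by
  have hv4 := v.isLt
  by_cases h1 : v.val ≤ k
  · -- both in the first block
    left
    apply same_ray k u v 1 (u.val + 1) v.val huv le_rfl (by omega) (Or.inr (e_pos _ _))
      (Or.inr (e_pos _ _)) (by omega)
    intro w h3 h4 _
    omega
  by_cases h2 : v.val ≤ 2 * k + 1
  · by_cases h3 : u.val ≤ k
    · left
      have e1 : e k u.val = 2 * k + 2 - u.val := by unfold e; rw [if_pos h3]
      have e2 : e k v.val = 4 * k + 4 - v.val := by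
        unfold e; rw [if_neg h1, if_pos h2]
      apply same_ray k u v (e k u.val) (k + 1) v.val huv (e_pos _ _) (e_le _ _ u.isLt)
        (Or.inr le_rfl) (Or.inr (by omega)) (by omega)
      intro w h4 h5 h6
      by_cases h7 : w ≤ k
      · exfalso
        have e3 : e k w = 2 * k + 2 - w := by unfold e; rw [if_pos h7]
        rcases h6 with h6 | h6 <;> omega
      · omega
    · left
      apply same_ray k u v 1 (u.val + 1) v.val huv le_rfl (by omega) (Or.inr (e_pos _ _))
        (Or.inr (e_pos _ _)) (by omega)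
      intro w h3 h4 _
      omega
  by_cases h3 : 2 * k + 2 ≤ u.val
  · left
    apply same_ray k u v 1 (u.val + 1) v.val huv le_rfl (by omega) (Or.inr (e_pos _ _))
      (Or.inr (e_pos _ _)) (by omega)
    intro w h3 h4 _
    omega
  have hv2 : 2 * k + 2 ≤ v.val := by omega
  by_cases h4 : v.val ≤ 3 * k + 2
  · have e2 : e k v.val = v.val - (2 * k + 1) := by
      unfold e; rw [if_neg h1, if_neg h2, if_pos h4]
    by_cases h5 : u.val ≤ k
    · left
      have e1 : e k u.val = 2 * k + 2 - u.val := by unfold e; rw [if_pos h5]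
      apply centre k u v (e k v.val) 0 u.val (e_pos _ _) (e_le _ _ v.isLt) (Or.inr (by omega))
        hv2 le_rfl (by omega)
      · intro w h6 _
        omega
      · intro w h6 h7 h8
        exfalso
        have e3 : e k w = w - (2 * k + 1) := by
          unfold e; rw [if_neg (by omega), if_neg (by omega), if_pos (by omega)]
        omega
    · left
      have e1 : e k u.val = 4 * k + 4 - u.val := by
        unfold e; rw [if_neg h5, if_pos (by omega)]
      apply same_ray k u v (e k u.val) (2 * k + 2) v.val huv (e_pos _ _) (e_le _ _ u.isLt)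
        (Or.inr le_rfl) (Or.inl hv2) (by omega)
      intro w h6 h7 h8
      by_cases h9 : w ≤ 2 * k + 1
      · exfalso
        have e3 : e k w = 4 * k + 4 - w := by
          unfold e; rw [if_neg (by omega), if_pos h9]
        rcases h8 with h8 | h8 <;> omega
      · omega
  · have hv3 : v.val = 3 * k + 3 := by omega
    have e2 : e k v.val = 3 * k + 4 := by
      unfold e; rw [if_neg h1, if_neg h2, if_neg h4]
    by_cases h5 : u.val ≤ k
    · left
      have e1 : e k u.val = 2 * k + 2 - u.val := by unfold e; rw [if_pos h5]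
      apply centre k u v (e k u.val) 0 u.val (e_pos _ _) (e_le _ _ u.isLt) (Or.inr le_rfl)
        hv2 (by omega) (by omega)
      · intro w h6 _
        omega
      · intro w h6 h7 h8
        exfalso
        have e3 : e k w = w - (2 * k + 1) := by
          unfold e; rw [if_neg (by omega), if_neg (by omega), if_pos (by omega)]
        omega
    · left
      have e1 : e k u.val = 4 * k + 4 - u.val := by
        unfold e; rw [if_neg h5, if_pos (by omega)]
      apply centre k u v (e k u.val) (k + 1) u.val (e_pos _ _) (e_le _ _ u.isLt) (Or.inr le_rfl)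
        hv2 (by omega) (by omega)
      · intro w h6 h7
        by_cases h8 : w ≤ k
        · exfalso
          have e3 : e k w = 2 * k + 2 - w := by unfold e; rw [if_pos h8]
          rcases h7 with h7 | h7 <;> omega
        · omega
      · intro w h6 h7 h8
        exfalso
        have e3 : e k w = w - (2 * k + 1) := by
          unfold e; rw [if_neg (by omega), if_neg (by omega), if_pos (by omega)]
        omega

lemma cone_comm (x y a b : ℝ) : cone x y a b = cone y x a b := by
  unfold cone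
  rw [Set.uIcc_comm]

lemma visible_symm {V : Type} (G : ArcFamily V) (k : ℕ) (u v : V) (h : G.KVisible k u v) :
    G.KVisible k v u := by
  obtain ⟨x, y, a, b, h1, h2, h3, h4, h5, h6, h7, h8⟩ := h
  refine ⟨y, x, a, b, h2, h1, h3.symm, h4, h5, h7, h6, ?_⟩
  rw [cone_comm]
  have : {w : V | w ≠ v ∧ w ≠ u ∧ (G.A w ∩ cone x y a b).Nonempty}
      = {w : V | w ≠ u ∧ w ≠ v ∧ (G.A w ∩ cone x y a b).Nonempty} := by
    ext w
    simp only [Set.mem_ofPred_eq]
    tauto
  rw [this]
  exact h8

/-- For every `k`, the complete graph on `3k+4` vertices is a semi-arc `k`-visibility graph. -/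
theorem complete (k : ℕ) : IsSemiArcKVis k (⊤ : SimpleGraph (Fin (3 * k + 4))) := by
  refine ⟨F k, fun _ => rfl, ?_⟩
  intro u v huv
  simp only [SimpleGraph.top_adj]
  refine ⟨fun _ => ?_, fun _ => huv⟩
  rcases lt_or_gt_of_ne (fun h : u.val = v.val => huv (Fin.ext h)) with h | h
  · rcases visible_of_lt k u v h with h1 | h1
    · exact h1
    · exact visible_symm _ _ _ _ h1
  · rcases visible_of_lt k v u h with h1 | h1
    · exact visible_symm _ _ _ _ h1
    · exact h1

/-- `K_{3k+4}` is a semi-arc `k`-visibility graph for every `k`, so the statement of the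
problem fails (and it fails for every single `k`). -/
theorem result :
    (∀ k : ℕ, IsSemiArcKVis k (⊤ : SimpleGraph (Fin (3 * k + 4)))) ∧
    ¬ (∀ k : ℕ, ¬ IsSemiArcKVis k (⊤ : SimpleGraph (Fin (3 * k + 4)))) :=
  ⟨complete, fun h => h 0 (complete 0)⟩

end Pool.Agent.Results.MP_e2d93f_co.CompleteSemiArc
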